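import Mathlib
import Pool.Agent.H523R2.Cap.Rate

/-!
`m(d,3) ≥ 2.22086^d` for all large `d`.
-/

namespace Pool.Agent.Results.MP_9c4077_co.CapRate

open Pool.Agent.H523R2.Cap

/-- A cap in `PG(d,F)`: a set of points (one-dimensional subspaces of `F^(d+1)`) of which at most
two lie on any line (two-dimensional subspace). -/
def IsCap {F : Type*} [Field F] {d : ℕ} (K : Finset (Submodule F (Fin (d + 1) → F))) : Prop :=
  (∀ P ∈ K, Module.finrank F P = 1) ∧
  ∀ L : Submodule F (Fin (d + 1) → F), Module.finrank F L = 2 →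
    ∀ M ⊆ K, (∀ P ∈ M, P ≤ L) → M.card ≤ 2

/-- `m(d,q)`: the largest size of a cap in `PG(d,F)`. -/
noncomputable def m (d : ℕ) (F : Type*) [Field F] : ℕ :=
  sSup {t | ∃ K : Finset (Submodule F (Fin (d + 1) → F)), IsCap K ∧ K.card = t}

/-- the affine point `x` as a vector -/
def vec {d : ℕ} (x : Fin d → ZMod 3) : Fin (d + 1) → ZMod 3 := Fin.cons 1 x

lemma vec_ne {d : ℕ} (x : Fin d → ZMod 3) : vec x ≠ 0 := by
  intro h
  have := congrFun h 0
  simp [vec] at this

lemma rel {d : ℕ} (x y z : Fin d → ZMod 3) (a b c : ZMod 3)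
    (h : a • vec x + b • vec y + c • vec z = 0) (hne : ¬ (a = 0 ∧ b = 0 ∧ c = 0)) :
    x = y ∨ y = z ∨ x = z ∨ x + y + z = 0 := by
  have h0 : a + b + c = 0 := by
    have := congrFun h 0
    simpa [vec] using this
  have h1 : ∀ i, a * x i + b * y i + c * z i = 0 := by
    intro i
    have := congrFun h i.succ
    simpa [vec] using this
  have key : ∀ a b c : ZMod 3, a + b + c = 0 → ¬ (a = 0 ∧ b = 0 ∧ c = 0) →
      (c = 0 ∧ b = -a ∧ a ≠ 0) ∨ (a = 0 ∧ c = -b ∧ b ≠ 0) ∨ (b = 0 ∧ c = -a ∧ a ≠ 0) ∨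
      (b = a ∧ c = a ∧ a ≠ 0) := by decide
  rcases key a b c h0 hne with ⟨h2, h3, h4⟩ | ⟨h2, h3, h4⟩ | ⟨h2, h3, h4⟩ | ⟨h2, h3, h4⟩
  · subst h2; subst h3
    refine Or.inl (funext fun i => mul_left_cancel₀ h4 ?_)
    linear_combination h1 i
  · subst h2; subst h3
    refine Or.inr (Or.inl (funext fun i => mul_left_cancel₀ h4 ?_))
    linear_combination h1 i
  · subst h2; subst h3
    refine Or.inr (Or.inr (Or.inl (funext fun i => mul_left_cancel₀ h4 ?_)))
    linear_combination h1 i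
  · subst h2; subst h3
    refine Or.inr (Or.inr (Or.inr (funext fun i => mul_left_cancel₀ h4 ?_)))
    simp only [Pi.add_apply, Pi.zero_apply]
    linear_combination h1 i

lemma span_inj {d : ℕ} : Function.Injective
    (fun x : Fin d → ZMod 3 => Submodule.span (ZMod 3) {vec x}) := by
  intro x y hxy
  have h1 : vec x ∈ Submodule.span (ZMod 3) {vec y} := by
    have : vec x ∈ Submodule.span (ZMod 3) {vec x} := Submodule.mem_span_singleton_self _
    rwa [show Submodule.span (ZMod 3) {vec x} = Submodule.span (ZMod 3) {vec y} from hxy] at this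
  obtain ⟨a, ha⟩ := Submodule.mem_span_singleton.1 h1
  have ha1 : a = 1 := by
    have := congrFun ha 0
    simpa [vec] using this
  rw [ha1, one_smul] at ha
  funext i
  have := congrFun ha i.succ
  simp only [vec, Fin.cons_succ] at this
  exact this.symm

theorem result : ∃ d0 : ℕ, ∀ d : ℕ, d0 ≤ d → (2.22086 : ℝ) ^ d ≤ (m d (ZMod 3) : ℝ) := by
  classical
  obtain ⟨n0, h⟩ := rate
  refine ⟨n0, fun n hn => ?_⟩
  obtain ⟨A, hA, hA'⟩ := h n hn
  refine hA'.trans ?_
  have hb : BddAbove {t | ∃ K : Finset (Submodule (ZMod 3) (Fin (n + 1) → ZMod 3)),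
      IsCap K ∧ K.card = t} := by
    have : Fintype (Submodule (ZMod 3) (Fin (n + 1) → ZMod 3)) := Fintype.ofFinite _
    refine ⟨Fintype.card (Submodule (ZMod 3) (Fin (n + 1) → ZMod 3)), ?_⟩
    rintro t ⟨A, _, rfl⟩
    exact Finset.card_le_univ A
  have : A.card ≤ m n (ZMod 3) := le_csSup hb
    ⟨A.map ⟨_, span_inj⟩, ⟨?_, ?_⟩, Finset.card_map _⟩
  · exact_mod_cast this
  · intro P hP
    obtain ⟨x, _, rfl⟩ := Finset.mem_map.1 hP
    exact finrank_span_singleton (vec_ne x)
  · intro L hL M hM hML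
    by_contra hcon
    push Not at hcon
    obtain ⟨P, Q, R, hP, hQ, hR, hPQ, hPR, hQR⟩ := Finset.two_lt_card_iff.1 hcon
    obtain ⟨x, hx, hx'⟩ := Finset.mem_map.1 (hM hP)
    obtain ⟨y, hy, hy'⟩ := Finset.mem_map.1 (hM hQ)
    obtain ⟨z, hz, hz'⟩ := Finset.mem_map.1 (hM hR)
    have hxy : x ≠ y := fun e => hPQ (by rw [← hx', ← hy', e])
    have hxz : x ≠ z := fun e => hPR (by rw [← hx', ← hz', e])
    have hyz : y ≠ z := fun e => hQR (by rw [← hy', ← hz', e])
    have hxL : vec x ∈ L := hML P hP (by rw [← hx']; exact Submodule.mem_span_singleton_self _)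
    have hyL : vec y ∈ L := hML Q hQ (by rw [← hy']; exact Submodule.mem_span_singleton_self _)
    have hzL : vec z ∈ L := hML R hR (by rw [← hz']; exact Submodule.mem_span_singleton_self _)
    let v : Fin 3 → L := ![⟨vec x, hxL⟩, ⟨vec y, hyL⟩, ⟨vec z, hzL⟩]
    have hdep : ¬ LinearIndependent (ZMod 3) v := by
      intro hli
      have := hli.fintype_card_le_finrank
      rw [hL, Fintype.card_fin] at this
      omega
    obtain ⟨g, hg, i, hi⟩ := Fintype.not_linearIndependent_iff.1 hdep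
    have hg' : g 0 • vec x + g 1 • vec y + g 2 • vec z = 0 := by
      have := congrArg (Subtype.val) hg
      simpa [Fin.sum_univ_three, v] using this
    rcases rel x y z _ _ _ hg' (by
      rintro ⟨h0, h1, h2⟩
      fin_cases i
      · exact hi h0
      · exact hi h1
      · exact hi h2) with h1 | h1 | h1 | h1
    · exact hxy h1
    · exact hyz h1
    · exact hxz h1
    · exact hxy (hA.no_sum hx hy hz h1)

end Pool.Agent.Results.MP_9c4077_co.CapRate
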